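import Mathlib

/-!
# Smoothable finite schemes and the smoothability defect

Finite schemes over a field `k` are represented by their coordinate rings: commutative
`k`-algebras of finite dimension.
-/

open TensorProduct

namespace Pool.Agent.H12.Defect

universe u

/-- `Spec B` is smoothable: there is a finite flat `k⟦X⟧`-algebra `𝒜` whose generic fibre
`k⸨X⸩ ⊗ 𝒜` is geometrically reduced and whose special fibre `𝒜 / X𝒜` is isomorphic to `B` as a
`k`-algebra (the isomorphism is given as a surjective ring homomorphism `π : 𝒜 → B` with kernel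
`X𝒜` which is `k`-linear). -/
def IsSmoothable (k : Type u) [Field k] (B : Type u) [CommRing B] [Algebra k B] : Prop :=
  ∃ (𝒜 : Type u) (_ : CommRing 𝒜) (_ : Algebra (PowerSeries k) 𝒜),
    Module.Finite (PowerSeries k) 𝒜 ∧ Module.Flat (PowerSeries k) 𝒜 ∧
    Algebra.IsGeometricallyReduced (LaurentSeries k) (LaurentSeries k ⊗[PowerSeries k] 𝒜) ∧
    ∃ π : 𝒜 →+* B, Function.Surjective π ∧
      RingHom.ker π = Ideal.span {algebraMap (PowerSeries k) 𝒜 PowerSeries.X} ∧
      ∀ r : k, π (algebraMap (PowerSeries k) 𝒜 (PowerSeries.C r)) = algebraMap k B r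

/-- The set of all numbers `deg Γ' - deg Γ`, where `Γ = Spec A` and `Γ' = Spec B` is a smoothable
finite scheme containing `Γ` as a closed subscheme (`B → A` surjective). -/
def defects (k : Type u) [Field k] (A : Type u) [CommRing A] [Algebra k A] : Set ℕ :=
  {δ | ∃ (B : Type u) (_ : CommRing B) (_ : Algebra k B), IsSmoothable k B ∧
    (∃ g : B →ₐ[k] A, Function.Surjective g) ∧
    Module.finrank k B = Module.finrank k A + δ}

/-- The smoothability defect `δ(Γ)` of `Γ = Spec A` (as an infimum in `ℕ∞`; it is a minimum as soon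
as some smoothable finite scheme contains `Γ`). -/
noncomputable def defect (k : Type u) [Field k] (A : Type u) [CommRing A] [Algebra k A] : ℕ∞ :=
  ⨅ δ ∈ defects k A, (δ : ℕ∞)

end Pool.Agent.H12.Defect
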