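import Pool.Agent.H12.Defect.Tensor

/-!
# Consequence of DefectGrowth: the exponent 1 cannot be lowered
-/

open TensorProduct Module Filter Topology
open scoped ENNReal

namespace Pool.Agent.H12.Defect.Growth

open Pool.Agent.H12.Defect

universe u

theorem bound (k : Type u) [Field k] (m n δ : ℕ)
    (hδ : δ ∈ defects k (⨂[k] _ : Fin n, Net k m)) :
    (2 * m + 4) ^ n + δ ≤ 9 ^ n + 3 ^ n * δ := by
  obtain ⟨B, iB, aB, hB, ⟨g, hg⟩, hd⟩ := hδ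
  exact defect_bound hB g hg hd

/-- a lower bound in real numbers -/
theorem real_bound {d n δ : ℕ} (hd : 10 ≤ d) (hn : 1 ≤ n) (h : d ^ n + δ ≤ 9 ^ n + 3 ^ n * δ) :
    (1 / 10 : ℝ) * ((d : ℝ) / 3) ^ n ≤ δ := by
  have h1 : (d : ℝ) ^ n ≤ 9 ^ n + 3 ^ n * δ := by
    have : d ^ n ≤ 9 ^ n + 3 ^ n * δ := by omega
    exact_mod_cast this
  have h2 : (9 : ℝ) ^ n ≤ (9 / 10) * (d : ℝ) ^ n := by
    have h3 : (10 : ℝ) ≤ d := by exact_mod_cast hd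
    obtain ⟨j, rfl⟩ : ∃ j, n = j + 1 := ⟨n - 1, by omega⟩
    have h4 : (9 : ℝ) ^ j ≤ (d : ℝ) ^ j := pow_le_pow_left₀ (by norm_num) (by linarith) j
    have h5 : (0 : ℝ) ≤ 9 ^ j := by positivity
    rw [pow_succ, pow_succ]
    nlinarith [mul_le_mul h4 h3 (by norm_num) (by positivity : (0 : ℝ) ≤ (d : ℝ) ^ j)]
  have h6 : (1 / 10 : ℝ) * (d : ℝ) ^ n ≤ 3 ^ n * δ := by linarith
  rw [div_pow, mul_div_assoc', div_le_iff₀ (by positivity)]
  linarith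

theorem exists_m (θ : ℝ) (hθ : θ < 1) :
    ∃ m : ℕ, 3 ≤ m ∧ 3 * ((2 * m + 4 : ℕ) : ℝ) ^ θ < ((2 * m + 4 : ℕ) : ℝ) := by
  have h1 : Tendsto (fun x : ℝ => x ^ (1 - θ)) atTop atTop :=
    tendsto_rpow_atTop (by linarith)
  have h2 : Tendsto (fun m : ℕ => ((2 * m + 4 : ℕ) : ℝ)) atTop atTop := by
    apply tendsto_natCast_atTop_atTop.comp
    apply tendsto_atTop_mono (f := fun m => m)
    · intro m; show m ≤ 2 * m + 4; omega
    · exact tendsto_id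
  have h3 := (h1.comp h2).eventually_gt_atTop 3
  obtain ⟨m, hm, hm3⟩ := (h3.and (eventually_ge_atTop 3)).exists
  refine ⟨m, hm3, ?_⟩
  have hpos : (0 : ℝ) < ((2 * m + 4 : ℕ) : ℝ) := by positivity
  have h4 : (3 : ℝ) < ((2 * m + 4 : ℕ) : ℝ) ^ (1 - θ) := hm
  have h5 : ((2 * m + 4 : ℕ) : ℝ) = ((2 * m + 4 : ℕ) : ℝ) ^ (1 - θ) * ((2 * m + 4 : ℕ) : ℝ) ^ θ := by
    rw [← Real.rpow_add hpos]; simp
  calc 3 * ((2 * m + 4 : ℕ) : ℝ) ^ θ < ((2 * m + 4 : ℕ) : ℝ) ^ (1 - θ) * ((2 * m + 4 : ℕ) : ℝ) ^ θ :=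
        mul_lt_mul_of_pos_right h4 (Real.rpow_pos_of_pos hpos _)
    _ = _ := h5.symm

/-- For every real `θ < 1` there is `m ≥ 3` such that,
with `Γ = Spec (Net k m)` and `d = deg Γ`, the ratio `δ(Γ^n) / d^(θn)` tends to infinity. -/
theorem growth (k : Type u) [Field k] :
    ∀ θ : ℝ, θ < 1 → ∃ m : ℕ, 3 ≤ m ∧
      Tendsto (fun n : ℕ => ((defect k (⨂[k] _ : Fin n, Net k m) : ℕ∞) : ℝ≥0∞) /
        ENNReal.ofReal ((finrank k (Net k m) : ℝ) ^ (θ * n))) atTop (𝓝 ⊤) := by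
  intro θ hθ
  obtain ⟨m, hm3, hm⟩ := exists_m θ hθ
  refine ⟨m, hm3, ?_⟩
  rw [Net.finrank_eq]
  set d : ℕ := 2 * m + 4 with hd
  have hd10 : 10 ≤ d := by omega
  have hdpos : (0 : ℝ) < d := by positivity
  set r : ℝ := (d : ℝ) / (3 * (d : ℝ) ^ θ) with hr
  have hθpos : (0 : ℝ) < (d : ℝ) ^ θ := Real.rpow_pos_of_pos hdpos _
  have hr1 : 1 < r := by
    rw [hr, lt_div_iff₀ (by positivity)]
    linarith
  have hlim : Tendsto (fun n : ℕ => ENNReal.ofReal ((1 / 10 : ℝ) * r ^ n)) atTop (𝓝 ⊤) := by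
    apply ENNReal.tendsto_ofReal_nhds_top.mpr
    exact (tendsto_pow_atTop_atTop_of_one_lt hr1).const_mul_atTop (by norm_num)
  refine tendsto_nhds_top_mono hlim ?_
  filter_upwards [eventually_ge_atTop 1] with n hn
  have hpos : (0 : ℝ) < (d : ℝ) ^ (θ * n) := Real.rpow_pos_of_pos hdpos _
  rw [ENNReal.le_div_iff_mul_le (Or.inl (by simpa using hpos)) (Or.inl ENNReal.ofReal_ne_top),
    ← ENNReal.ofReal_mul (by positivity)]
  have hkey : (1 / 10 : ℝ) * r ^ n * (d : ℝ) ^ (θ * n) = (1 / 10 : ℝ) * ((d : ℝ) / 3) ^ n := by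
    rw [Real.rpow_mul hdpos.le, Real.rpow_natCast, mul_assoc, ← mul_pow, hr]
    congr 2
    field_simp
  rw [hkey]
  have hle : ∀ δ ∈ defects k (⨂[k] _ : Fin n, Net k m),
      ENNReal.ofReal ((1 / 10 : ℝ) * ((d : ℝ) / 3) ^ n) ≤ ((δ : ℕ∞) : ℝ≥0∞) := by
    intro δ hδ
    have := real_bound hd10 hn (bound k m n δ hδ)
    calc ENNReal.ofReal ((1 / 10 : ℝ) * ((d : ℝ) / 3) ^ n) ≤ ENNReal.ofReal (δ : ℝ) :=
          ENNReal.ofReal_le_ofReal this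
      _ = ((δ : ℕ∞) : ℝ≥0∞) := by simp
  rw [defect]
  by_cases htop : (⨅ δ ∈ defects k (⨂[k] _ : Fin n, Net k m), (δ : ℕ∞)) = ⊤
  · rw [htop]; simp
  · obtain ⟨δ, hδ, hδe⟩ : ∃ δ ∈ defects k (⨂[k] _ : Fin n, Net k m),
        (⨅ δ ∈ defects k (⨂[k] _ : Fin n, Net k m), (δ : ℕ∞)) = (δ : ℕ∞) := by
      have hne : (defects k (⨂[k] _ : Fin n, Net k m)).Nonempty := by
        by_contra h
        rw [Set.not_nonempty_iff_eq_empty] at h
        apply htop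
        rw [h]; simp
      refine ⟨sInf (defects k (⨂[k] _ : Fin n, Net k m)), Nat.sInf_mem hne, ?_⟩
      apply le_antisymm
      · exact iInf₂_le _ (Nat.sInf_mem hne)
      · refine le_iInf₂ fun δ hδ => ?_
        exact_mod_cast Nat.sInf_le hδ
    rw [hδe]
    exact hle δ hδ

end Pool.Agent.H12.Defect.Growth
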