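import Pool.Agent.H12.Defect.Special

open TensorProduct Module

namespace Pool.Agent.H12.Defect

universe u

variable {k : Type u} [Field k]

/-- The basic inequality: if `Spec B` is smoothable and contains `Spec A`, then
`deg B ≤ dim (comm y) + c * (deg B - deg A)`, `c` being the number of functionals. -/
theorem basic_ineq {A B : Type u} [CommRing A] [Algebra k A] [Module.Finite k A] [CommRing B]
    [Algebra k B] (hB : IsSmoothable k B) (g : B →ₐ[k] A) (hg : Function.Surjective g)
    {ι : Type} [Fintype ι] [Nonempty ι] (y : ι → A →ₗ[k] k) {δ : ℕ}
    (hδ : finrank k B = finrank k A + δ) :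
    finrank k A + δ ≤ finrank k (comm y) + Fintype.card ι * δ := by
  classical
  obtain ⟨hfinB, h1⟩ := hB.finrank_le (fun i => (y i) ∘ₗ g.toLinearMap)
  rw [← hδ]
  refine h1.trans ?_
  let z : ι → B →ₗ[k] k := fun i => (y i) ∘ₗ g.toLinearMap
  let K := LinearMap.ker g.toLinearMap
  have hK : finrank k K = δ := by
    have h2 := LinearMap.finrank_range_add_finrank_ker g.toLinearMap
    rw [LinearMap.range_eq_top.mpr hg, finrank_top, hδ] at h2
    change finrank k A + finrank k K = finrank k A + δ at h2
    omega
  -- the map `comm z → comm y`
  let G : comm z →ₗ[k] comm y :=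
    { toFun := fun φ => ⟨fun i => g ((φ : ι → B) i), by
        intro i j a
        obtain ⟨b, rfl⟩ := hg a
        have := φ.2 i j b
        simp only [z, LinearMap.comp_apply, AlgHom.toLinearMap_apply, map_mul] at this
        exact this⟩
      map_add' := by
        intro φ ψ
        apply Subtype.ext
        funext i
        simp
      map_smul' := by
        intro c φ
        apply Subtype.ext
        funext i
        simp }
  let E : LinearMap.ker G →ₗ[k] (ι → K) :=
    { toFun := fun φ i => ⟨((φ : comm z) : ι → B) i, by
        have h := φ.2
        rw [LinearMap.mem_ker] at h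
        exact congrFun (congrArg Subtype.val h) i⟩
      map_add' := by intro φ ψ; rfl
      map_smul' := by intro c φ; rfl }
  have hE : Function.Injective E := by
    intro φ ψ h
    apply Subtype.ext
    apply Subtype.ext
    funext i
    exact congrArg Subtype.val (congrFun h i)
  have h3 := LinearMap.finrank_range_add_finrank_ker G
  have h4 : finrank k (LinearMap.range G) ≤ finrank k (comm y) := Submodule.finrank_le _
  have h5 : finrank k (LinearMap.ker G) ≤ Fintype.card ι * δ := by
    have := LinearMap.finrank_le_finrank_of_injective hE
    rw [Module.finrank_pi_fintype] at this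
    simpa [hK] using this
  have h6 : finrank k (comm z) = finrank k (comm fun i => (y i) ∘ₗ g.toLinearMap) := rfl
  omega

end Pool.Agent.H12.Defect
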