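import Mathlib

/-!
# The local algebra of degree `2m + 4`

`Net k m` is the algebra with basis `1`, `x_i, y_i` (`i < m`), `a, b, c` and products
`x_i² = a`, `x_i y_i = b`, `y_i² = c`, all other products of the non-unit basis elements being `0`.
-/

open Module

set_option linter.unusedSimpArgs false
set_option linter.unusedSectionVars false

namespace Pool.Agent.H12.Defect

universe u

/-- underlying space of the algebra -/
def Net (k : Type u) (m : ℕ) : Type u := k × (Fin m × Fin 2 → k) × (Fin 3 → k)

namespace Net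

variable {k : Type u} [Field k] {m : ℕ}

section aux

/-- auxiliary: additive structure (subsumed by the ring structure below) -/
@[reducible] noncomputable def auxAdd (k : Type u) [Field k] (m : ℕ) : AddCommGroup (Net k m) :=
  inferInstanceAs (AddCommGroup (k × (Fin m × Fin 2 → k) × (Fin 3 → k)))

attribute [local instance] auxAdd

/-- auxiliary: vector space structure (subsumed by the algebra structure below) -/
@[reducible] noncomputable def auxModule (k : Type u) [Field k] (m : ℕ) : Module k (Net k m) :=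
  inferInstanceAs (Module k (k × (Fin m × Fin 2 → k) × (Fin 3 → k)))

attribute [local instance] auxModule

/-- the three quadratic forms, polarised -/
noncomputable def Q (u v : Fin m × Fin 2 → k) : Fin 3 → k :=
  ![∑ i, u (i, 0) * v (i, 0), ∑ i, (u (i, 0) * v (i, 1) + u (i, 1) * v (i, 0)),
    ∑ i, u (i, 1) * v (i, 1)]

theorem Q_comm (u v : Fin m × Fin 2 → k) : Q u v = Q v u := by
  ext w
  fin_cases w
  · simp [Q, mul_comm]
  · simp only [Q, Fin.mk_one, Fin.isValue, Matrix.cons_val_one, Matrix.cons_val_zero]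
    exact Finset.sum_congr rfl (fun i _ => by ring)
  · simp [Q, mul_comm]

theorem Q_add (u v w : Fin m × Fin 2 → k) : Q u (v + w) = Q u v + Q u w := by
  ext z
  fin_cases z
  · simp [Q, mul_add, Finset.sum_add_distrib]
  · simp only [Q, Fin.mk_one, Fin.isValue, Matrix.cons_val_one, Matrix.cons_val_zero, Pi.add_apply,
      ← Finset.sum_add_distrib]
    exact Finset.sum_congr rfl (fun i _ => by ring)
  · simp [Q, mul_add, Finset.sum_add_distrib]

theorem Q_smul (c : k) (u v : Fin m × Fin 2 → k) : Q u (c • v) = c • Q u v := by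
  ext z
  fin_cases z
  · simp only [Q, Fin.zero_eta, Fin.isValue, Matrix.cons_val_zero, Pi.smul_apply, smul_eq_mul,
      Finset.mul_sum]
    exact Finset.sum_congr rfl (fun i _ => by ring)
  · simp only [Q, Fin.mk_one, Fin.isValue, Matrix.cons_val_one, Matrix.cons_val_zero, Pi.smul_apply,
      smul_eq_mul, Finset.mul_sum]
    exact Finset.sum_congr rfl (fun i _ => by ring)
  · simp only [Q, Fin.reduceFinMk, Matrix.cons_val, Pi.smul_apply, smul_eq_mul, Finset.mul_sum]
    exact Finset.sum_congr rfl (fun i _ => by ring)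

theorem add_Q (u v w : Fin m × Fin 2 → k) : Q (u + v) w = Q u w + Q v w := by
  rw [Q_comm, Q_add, Q_comm w u, Q_comm w v]

theorem smul_Q (c : k) (u v : Fin m × Fin 2 → k) : Q (c • u) v = c • Q u v := by
  rw [Q_comm, Q_smul, Q_comm v u]

noncomputable instance : Mul (Net k m) :=
  ⟨fun a b => (a.1 * b.1, a.1 • b.2.1 + b.1 • a.2.1,
    a.1 • b.2.2 + b.1 • a.2.2 + Q a.2.1 b.2.1)⟩

noncomputable instance : One (Net k m) := ⟨(1, 0, 0)⟩


@[simp] theorem mul_fst (a b : Net k m) : (a * b).1 = a.1 * b.1 := rfl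
@[simp] theorem mul_snd1 (a b : Net k m) : (a * b).2.1 = a.1 • b.2.1 + b.1 • a.2.1 := rfl
@[simp] theorem mul_snd2 (a b : Net k m) :
    (a * b).2.2 = a.1 • b.2.2 + b.1 • a.2.2 + Q a.2.1 b.2.1 := rfl
@[simp] theorem one_fst : (1 : Net k m).1 = 1 := rfl
@[simp] theorem one_snd1 : (1 : Net k m).2.1 = 0 := rfl
@[simp] theorem one_snd2 : (1 : Net k m).2.2 = 0 := rfl

theorem add_fst (a b : Net k m) : (a + b).1 = a.1 + b.1 := rfl
theorem add_snd1 (a b : Net k m) : (a + b).2.1 = a.2.1 + b.2.1 := rfl
theorem add_snd2 (a b : Net k m) : (a + b).2.2 = a.2.2 + b.2.2 := rfl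
@[simp] theorem zero_fst : (0 : Net k m).1 = 0 := rfl
@[simp] theorem zero_snd1 : (0 : Net k m).2.1 = 0 := rfl
@[simp] theorem zero_snd2 : (0 : Net k m).2.2 = 0 := rfl
@[simp] theorem smul_fst (c : k) (a : Net k m) : (c • a).1 = c * a.1 := rfl
@[simp] theorem smul_snd1 (c : k) (a : Net k m) : (c • a).2.1 = c • a.2.1 := rfl
@[simp] theorem smul_snd2 (c : k) (a : Net k m) : (c • a).2.2 = c • a.2.2 := rfl

@[ext] theorem ext' {a b : Net k m} (h1 : a.1 = b.1) (h2 : a.2.1 = b.2.1) (h3 : a.2.2 = b.2.2) :
    a = b := Prod.ext h1 (Prod.ext h2 h3)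

theorem zero_Q (u : Fin m × Fin 2 → k) : Q 0 u = 0 := by
  have := smul_Q (0 : k) u u
  simpa using this

theorem Q_zero (u : Fin m × Fin 2 → k) : Q u 0 = 0 := by rw [Q_comm, zero_Q]

noncomputable instance : CommRing (Net k m) :=
  { (inferInstance : AddCommGroup (Net k m)) with
    mul := (· * ·)
    one := 1
    left_distrib := by
      intro a b c
      apply ext'
      · simp only [mul_fst, mul_snd1, mul_snd2, add_fst]; ring
      · simp only [mul_fst, mul_snd1, mul_snd2, add_fst, add_snd1, smul_add, add_smul]; abel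
      · simp only [mul_fst, mul_snd1, mul_snd2, add_fst, add_snd1, add_snd2, smul_add, add_smul, Q_add]; abel
    right_distrib := by
      intro a b c
      apply ext'
      · simp only [mul_fst, mul_snd1, mul_snd2, add_fst]; ring
      · simp only [mul_fst, mul_snd1, mul_snd2, add_fst, add_snd1, smul_add, add_smul]; abel
      · simp only [mul_fst, mul_snd1, mul_snd2, add_fst, add_snd1, add_snd2, smul_add, add_smul, add_Q]; abel
    zero_mul := by
      intro a
      apply ext'
      · simp
      · simp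
      · simp [zero_Q]
    mul_zero := by
      intro a
      apply ext'
      · simp
      · simp
      · simp [Q_zero]
    mul_assoc := by
      intro a b c
      apply ext'
      · simp only [mul_fst, mul_snd1, mul_snd2]; ring
      · simp only [mul_fst, mul_snd1, mul_snd2, smul_add, smul_smul]; rw [mul_comm c.1 a.1, mul_comm c.1 b.1]; abel
      · simp only [mul_fst, mul_snd1, mul_snd2, smul_add, smul_smul, add_Q, Q_add, smul_Q, Q_smul]
        rw [mul_comm c.1 a.1, mul_comm c.1 b.1]; abel
    one_mul := by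
      intro a
      apply ext'
      · simp
      · simp
      · simp [zero_Q]
    mul_one := by
      intro a
      apply ext'
      · simp
      · simp
      · simp [Q_zero]
    mul_comm := by
      intro a b
      apply ext'
      · simp only [mul_fst, mul_snd1, mul_snd2]; ring
      · simp only [mul_fst, mul_snd1, mul_snd2]; abel
      · simp only [mul_fst, mul_snd1, mul_snd2]; rw [Q_comm]; abel }

noncomputable instance : Algebra k (Net k m) :=
  Algebra.ofModule
    (by
      intro r x y
      apply ext'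
      · simp only [mul_fst, mul_snd1, mul_snd2, smul_fst]; ring
      · simp only [mul_fst, mul_snd1, mul_snd2, smul_fst, smul_snd1, smul_add, smul_smul]; rw [mul_comm y.1 r]
      · simp only [mul_fst, mul_snd1, mul_snd2, smul_fst, smul_snd1, smul_snd2, smul_add, smul_smul, smul_Q]
        rw [mul_comm y.1 r])
    (by
      intro r x y
      apply ext'
      · simp only [mul_fst, mul_snd1, mul_snd2, smul_fst]; ring
      · simp only [mul_fst, mul_snd1, mul_snd2, smul_fst, smul_snd1, smul_add, smul_smul]; rw [mul_comm x.1 r]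
      · simp only [mul_fst, mul_snd1, mul_snd2, smul_fst, smul_snd1, smul_snd2, smul_add, smul_smul, Q_smul]
        rw [mul_comm x.1 r])

end aux

/-- index type of the basis -/
abbrev Idx (m : ℕ) : Type := Unit ⊕ (Fin m × Fin 2) ⊕ Fin 3

/-- coordinates -/
noncomputable def equivFun (k : Type u) [Field k] (m : ℕ) : Net k m ≃ₗ[k] (Idx m → k) where
  toFun a := Sum.elim (fun _ => a.1) (Sum.elim a.2.1 a.2.2)
  invFun f := (f (Sum.inl ()), fun v => f (Sum.inr (Sum.inl v)), fun w => f (Sum.inr (Sum.inr w)))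
  map_add' a b := by
    funext i
    rcases i with _ | _ | _ <;> rfl
  map_smul' c a := by
    funext i
    rcases i with _ | _ | _ <;> rfl
  left_inv a := rfl
  right_inv f := by
    funext i
    rcases i with _ | _ | _ <;> rfl

/-- the basis `1; x_i, y_i; a, b, c` -/
noncomputable def bas (k : Type u) [Field k] (m : ℕ) : Basis (Idx m) k (Net k m) :=
  Basis.ofEquivFun (equivFun k m)

theorem finrank_eq : finrank k (Net k m) = 2 * m + 4 := by
  rw [finrank_eq_card_basis (bas k m)]
  simp
  ring

noncomputable instance : Module.Finite k (Net k m) := Module.Finite.of_basis (bas k m)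

theorem repr_apply (a : Net k m) (i : Idx m) :
    (bas k m).repr a i = equivFun k m a i := by
  rw [bas, Basis.ofEquivFun_repr_apply]

theorem repr_one (a : Net k m) : (bas k m).repr a (Sum.inl ()) = a.1 := by
  rw [repr_apply]; rfl

theorem repr_V (a : Net k m) (v : Fin m × Fin 2) :
    (bas k m).repr a (Sum.inr (Sum.inl v)) = a.2.1 v := by
  rw [repr_apply]; rfl

theorem repr_W (a : Net k m) (w : Fin 3) :
    (bas k m).repr a (Sum.inr (Sum.inr w)) = a.2.2 w := by
  rw [repr_apply]; rfl

theorem bas_apply (i : Idx m) : bas k m i = (equivFun k m).symm (Pi.single i 1) := by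
  rw [bas, Basis.coe_ofEquivFun]

theorem symm_fst (f : Idx m → k) : ((equivFun k m).symm f).1 = f (Sum.inl ()) := rfl
theorem symm_snd1 (f : Idx m → k) (v : Fin m × Fin 2) :
    ((equivFun k m).symm f).2.1 v = f (Sum.inr (Sum.inl v)) := rfl
theorem symm_snd2 (f : Idx m → k) (w : Fin 3) :
    ((equivFun k m).symm f).2.2 w = f (Sum.inr (Sum.inr w)) := rfl

theorem bas_one (u : Unit) : bas k m (Sum.inl u) = 1 := by
  rw [bas_apply]
  apply ext'
  · rw [symm_fst]; simp
  · funext v; rw [symm_snd1]; simp
  · funext v; rw [symm_snd2]; simp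

@[simp] theorem bas_V_fst (v : Fin m × Fin 2) : (bas k m (Sum.inr (Sum.inl v))).1 = 0 := by
  rw [bas_apply, symm_fst]; simp

@[simp] theorem bas_V_snd1 (v : Fin m × Fin 2) :
    (bas k m (Sum.inr (Sum.inl v))).2.1 = Pi.single v 1 := by
  rw [bas_apply]; funext u; rw [symm_snd1]; simp [Pi.single_apply]

@[simp] theorem bas_V_snd2 (v : Fin m × Fin 2) : (bas k m (Sum.inr (Sum.inl v))).2.2 = 0 := by
  rw [bas_apply]; funext u; rw [symm_snd2]; simp

@[simp] theorem bas_W_fst (w : Fin 3) : (bas k m (Sum.inr (Sum.inr w))).1 = 0 := by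
  rw [bas_apply, symm_fst]; simp

@[simp] theorem bas_W_snd1 (w : Fin 3) : (bas k m (Sum.inr (Sum.inr w))).2.1 = 0 := by
  rw [bas_apply]; funext u; rw [symm_snd1]; simp

@[simp] theorem bas_W_snd2 (w : Fin 3) :
    (bas k m (Sum.inr (Sum.inr w))).2.2 = Pi.single w 1 := by
  rw [bas_apply]; funext u; rw [symm_snd2]; simp [Pi.single_apply]

/-- the coefficient of `bas w` (`w` in the socle) in `bas β * bas γ` -/
def tab (w : Fin 3) : Idx m → Idx m → ℕ
  | Sum.inl _, Sum.inr (Sum.inr w') => if w = w' then 1 else 0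
  | Sum.inr (Sum.inr w'), Sum.inl _ => if w = w' then 1 else 0
  | Sum.inr (Sum.inl u), Sum.inr (Sum.inl v) =>
      if u.1 = v.1 ∧ (w : ℕ) = (u.2 : ℕ) + (v.2 : ℕ) then 1 else 0
  | _, _ => 0

theorem Q_single (u v : Fin m × Fin 2) (w : Fin 3) :
    Q (Pi.single u (1 : k)) (Pi.single v 1) w =
      if u.1 = v.1 ∧ (w : ℕ) = (u.2 : ℕ) + (v.2 : ℕ) then 1 else 0 := by
  obtain ⟨i, p⟩ := u
  obtain ⟨j, q⟩ := v
  fin_cases w <;> fin_cases p <;> fin_cases q <;>
    by_cases hij : i = j <;>
      simp [Q, Pi.single_apply, Prod.ext_iff, hij, Finset.sum_ite_eq, eq_comm]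

theorem repr_mul (w : Fin 3) (β γ : Idx m) :
    (bas k m).repr (bas k m β * bas k m γ) (Sum.inr (Sum.inr w)) = (tab w β γ : k) := by
  rw [repr_W]
  rcases β with _ | u | w1 <;> rcases γ with _ | v | w2
  · simp [bas_one, tab, Q_zero]
  · simp [bas_one, tab, zero_Q]
  · simp [bas_one, tab, Pi.single_apply, zero_Q]
  · simp [bas_one, tab, Q_zero]
  · simp [tab, Q_single]
  · simp [tab, Q_zero]
  · simp [bas_one, tab, Pi.single_apply, zero_Q]
  · simp [tab, zero_Q]
  · simp [tab, zero_Q]

end Net

end Pool.Agent.H12.Defect
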