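import Mathlib

/-!
# Kernel dimensions in flat families with reduced geometric generic fibre
-/

open TensorProduct Module

namespace Pool.Agent.H12.Defect

universe u v

section general

variable {R : Type*} [CommRing R] {A : Type*} [CommRing A] [Algebra R A] {ι : Type*}

/-- The submodule of families `φ : ι → A` with `y j (φ i * b) = y i (φ j * b)` for all `i j b`;
here `y` is a family of linear functionals on `A`. -/
def comm (y : ι → A →ₗ[R] R) : Submodule R (ι → A) where
  carrier := {φ | ∀ i j b, y j (φ i * b) = y i (φ j * b)}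
  add_mem' := by
    intro φ ψ hφ hψ i j b
    simp only [Pi.add_apply, add_mul, map_add]
    rw [hφ i j b, hψ i j b]
  zero_mem' := by
    intro i j b
    simp
  smul_mem' := by
    intro c φ hφ i j b
    simp only [Pi.smul_apply, smul_mul_assoc, map_smul]
    rw [hφ i j b]

theorem mem_comm {y : ι → A →ₗ[R] R} {φ : ι → A} :
    φ ∈ comm y ↔ ∀ i j b, y j (φ i * b) = y i (φ j * b) := Iff.rfl

end general

section omega

theorem exists_algEquiv_pi (Ω : Type*) [Field Ω] [IsAlgClosed Ω] (S : Type v) [CommRing S]
    [Algebra Ω S] [Module.Finite Ω S] [IsReduced S] :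
    ∃ (T : Type v) (_ : Fintype T), Nonempty (S ≃ₐ[Ω] (T → Ω)) := by
  classical
  have : IsArtinianRing S := isArtinian_of_tower Ω inferInstance
  let _ (m : MaximalSpectrum S) : Field (S ⧸ m.asIdeal) := Ideal.Quotient.field m.asIdeal
  have : Fintype (MaximalSpectrum S) := Fintype.ofFinite _
  have hfin (m : MaximalSpectrum S) : Module.Finite Ω (S ⧸ m.asIdeal) := inferInstance
  have (m : MaximalSpectrum S) : Algebra.IsAlgebraic Ω (S ⧸ m.asIdeal) := inferInstance
  exact ⟨MaximalSpectrum S, inferInstance, ⟨((IsArtinianRing.equivPi _).restrictScalars Ω).trans <|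
    (AlgEquiv.piCongrRight fun m ↦ (AlgEquiv.ofBijective (Algebra.ofId Ω (S ⧸ m.asIdeal))
      IsAlgClosed.algebraMap_bijective_of_isIntegral).symm)⟩⟩

end omega

section main

variable {R : Type*} [CommRing R] {Ω : Type*} [Field Ω] [Algebra R Ω]

/-- scalar extension of a functional -/
noncomputable def ext (Ω : Type*) [Field Ω] [Algebra R Ω] {M : Type*} [AddCommGroup M] [Module R M]
    (f : M →ₗ[R] R) : Ω ⊗[R] M →ₗ[Ω] Ω :=
  (AlgebraTensorModule.rid R Ω Ω).toLinearMap ∘ₗ AlgebraTensorModule.lTensor Ω Ω f

@[simp] theorem ext_tmul {M : Type*} [AddCommGroup M] [Module R M]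
    (f : M →ₗ[R] R) (x : Ω) (m : M) : ext Ω f (x ⊗ₜ m) = f m • x := by
  simp [ext]

theorem pi_lTensor {M : Type*} [AddCommGroup M] [Module R M] {T : Type*} [Fintype T]
    [DecidableEq T] (f : T → M →ₗ[R] R) (m : Ω ⊗[R] M) (t : T) :
    TensorProduct.piScalarRight R Ω Ω T (AlgebraTensorModule.lTensor Ω Ω (LinearMap.pi f) m) t =
      ext Ω (f t) m := by
  induction m using TensorProduct.induction_on with
  | zero => simp
  | tmul x y => simp [TensorProduct.piScalarRight_apply, TensorProduct.piScalarRightHom_tmul]
  | add x y hx hy => simp only [map_add, Pi.add_apply, hx, hy]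

theorem ext_comp {M N : Type*} [AddCommGroup M] [Module R M] [AddCommGroup N] [Module R N]
    (f : N →ₗ[R] R) (g : M →ₗ[R] N) (m : Ω ⊗[R] M) :
    ext Ω f (AlgebraTensorModule.lTensor Ω Ω g m) = ext Ω (f ∘ₗ g) m := by
  induction m using TensorProduct.induction_on with
  | zero => simp
  | tmul x y => simp
  | add x y hx hy => simp only [map_add, hx, hy]

theorem ext_mul {A : Type*} [CommRing A] [Algebra R A] (f : A →ₗ[R] R) (a : A) (s : Ω ⊗[R] A) :
    ext Ω (f ∘ₗ LinearMap.mulRight R a) s = ext Ω f (s * (1 ⊗ₜ a)) := by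
  induction s using TensorProduct.induction_on with
  | zero => simp
  | tmul x y => simp
  | add x y hx hy => simp only [map_add, add_mul, hx, hy]

theorem ext_sub {M : Type*} [AddCommGroup M] [Module R M] (f g : M →ₗ[R] R) (m : Ω ⊗[R] M) :
    ext Ω (f - g) m = ext Ω f m - ext Ω g m := by
  induction m using TensorProduct.induction_on with
  | zero => simp
  | tmul x y => simp [sub_smul]
  | add x y hx hy => simp only [map_add, hx, hy]; abel

theorem finrank_le_finrank_comm [IsDomain R] [IsPrincipalIdealRing R] [IsAlgClosed Ω]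
    [Module.Flat R Ω] {A : Type*} [CommRing A] [Algebra R A] [Module.Finite R A]
    [Module.Free R A] [IsReduced (Ω ⊗[R] A)] {ι : Type*} [Fintype ι] [Nonempty ι]
    (y : ι → A →ₗ[R] R) : finrank R A ≤ finrank R (comm y) := by
  classical
  obtain ⟨T, _, ⟨e⟩⟩ := exists_algEquiv_pi Ω (Ω ⊗[R] A)
  -- idempotents
  let ep : T → Ω ⊗[R] A := fun p => e.symm (Pi.single p 1)
  have hep : ∀ p s, ep p * s = (e s p) • ep p := by
    intro p s
    apply e.injective
    simp only [ep, map_mul, AlgEquiv.apply_symm_apply, map_smul]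
    ext q
    by_cases hq : q = p
    · subst hq; simp
    · simp [hq]
  have hcard : Fintype.card T = finrank R A := by
    have h1 : finrank Ω (Ω ⊗[R] A) = finrank R A := Module.finrank_baseChange
    rw [← h1, e.toLinearEquiv.finrank_eq]
    simp
  have hepi : ∀ (c : T → Ω), ∑ p, c p • ep p = 0 → ∀ p, c p = 0 := by
    intro c hc p
    have h := congrArg e hc
    rw [map_sum, map_zero] at h
    have h2 := congrFun h p
    simp only [ep, map_smul, AlgEquiv.apply_symm_apply, Finset.sum_apply, Pi.smul_apply,
      Pi.single_apply, smul_eq_mul, mul_ite, mul_one, mul_zero, Finset.sum_ite_eq,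
      Finset.mem_univ, if_true, Pi.zero_apply] at h2
    exact h2
  -- coefficients
  let Y : ι → Ω ⊗[R] A →ₗ[Ω] Ω := fun i => ext Ω (y i)
  let c : T → ι → Ω := fun p i => if (∀ i, Y i (ep p) = 0) then 1 else Y i (ep p)
  have hc0 : ∀ p, ∃ i, c p i ≠ 0 := by
    intro p
    by_cases h : ∀ i, Y i (ep p) = 0
    · exact ⟨Classical.arbitrary ι, by simp [c, h]⟩
    · obtain ⟨i, hi⟩ := not_forall.mp h
      exact ⟨i, by simp only [c, if_neg h]; exact hi⟩
  have hcY : ∀ p i j, c p i * Y j (ep p) = c p j * Y i (ep p) := by
    intro p i j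
    by_cases h : ∀ i, Y i (ep p) = 0
    · simp [h]
    · simp only [c, if_neg h]; ring
  -- the big map
  let b := Module.Free.chooseBasis R A
  let κ := Module.Free.ChooseBasisIndex R A
  let f : (ι × ι × κ) → (ι → A) →ₗ[R] R := fun t =>
    ((y t.2.1) ∘ₗ LinearMap.mulRight R (b t.2.2)) ∘ₗ LinearMap.proj t.1 -
      ((y t.1) ∘ₗ LinearMap.mulRight R (b t.2.2)) ∘ₗ LinearMap.proj t.2.1
  let F : (ι → A) →ₗ[R] (ι × ι × κ → R) := LinearMap.pi f
  have hker : LinearMap.ker F = comm y := by
    ext φ
    rw [LinearMap.mem_ker, mem_comm]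
    constructor
    · intro h i j a
      have h1 : ∀ l, y j (φ i * b l) = y i (φ j * b l) := by
        intro l
        have h2 := congrFun h (i, j, l)
        simp only [F, f, LinearMap.pi_apply, LinearMap.sub_apply, LinearMap.comp_apply,
          LinearMap.proj_apply, LinearMap.mulRight_apply, Pi.zero_apply] at h2
        exact sub_eq_zero.mp h2
      rw [← b.sum_repr a]
      simp only [Finset.mul_sum, mul_smul_comm, map_sum, map_smul, h1]
    · intro h
      ext t
      simp only [F, f, LinearMap.pi_apply, LinearMap.sub_apply, LinearMap.comp_apply,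
          LinearMap.proj_apply, LinearMap.mulRight_apply, Pi.zero_apply]
      rw [h, sub_self]
  -- kernel elements
  let V : T → Ω ⊗[R] (ι → A) := fun p =>
    ∑ i, AlgebraTensorModule.lTensor Ω Ω (LinearMap.single R (fun _ => A) i) (c p i • ep p)
  have hV : ∀ p, V p ∈ LinearMap.ker (AlgebraTensorModule.lTensor Ω Ω F) := by
    intro p
    rw [LinearMap.mem_ker]
    apply (TensorProduct.piScalarRight R Ω Ω (ι × ι × κ)).injective
    rw [map_zero]
    ext t
    rw [pi_lTensor, Pi.zero_apply]
    obtain ⟨i0, j0, l⟩ := t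
    simp only [V, map_sum, ext_comp]
    have key : ∀ i, ext Ω (f (i0, j0, l) ∘ₗ LinearMap.single R (fun _ => A) i) (c p i • ep p) =
        (if i = i0 then c p i0 * (e (1 ⊗ₜ b l) p * Y j0 (ep p)) else 0) -
        (if i = j0 then c p j0 * (e (1 ⊗ₜ b l) p * Y i0 (ep p)) else 0) := by
      intro i
      have h1 : f (i0, j0, l) ∘ₗ LinearMap.single R (fun _ => A) i =
          (if i = i0 then (y j0) ∘ₗ LinearMap.mulRight R (b l) else 0) -
          (if i = j0 then (y i0) ∘ₗ LinearMap.mulRight R (b l) else 0) := by
        ext a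
        simp only [f, LinearMap.comp_apply, LinearMap.sub_apply, LinearMap.single_apply,
          LinearMap.proj_apply, LinearMap.mulRight_apply]
        congr 1
        · by_cases h : i = i0
          · subst h; simp
          · rw [if_neg h, Pi.single_eq_of_ne (Ne.symm h)]; simp
        · by_cases h : i = j0
          · subst h; simp
          · rw [if_neg h, Pi.single_eq_of_ne (Ne.symm h)]; simp
      rw [h1, ext_sub]
      congr 1
      · by_cases h : i = i0
        · subst h
          rw [if_pos rfl, if_pos rfl, ext_mul, smul_mul_assoc, hep, map_smul, map_smul]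
          simp [Y, smul_eq_mul]
        · rw [if_neg h, if_neg h]; simp [ext]
      · by_cases h : i = j0
        · subst h
          rw [if_pos rfl, if_pos rfl, ext_mul, smul_mul_assoc, hep, map_smul, map_smul]
          simp [Y, smul_eq_mul]
        · rw [if_neg h, if_neg h]; simp [ext]
    rw [Finset.sum_congr rfl (fun i _ => key i), Finset.sum_sub_distrib]
    simp only [Finset.sum_ite_eq', Finset.mem_univ, if_true]
    have := hcY p i0 j0
    linear_combination (e (1 ⊗ₜ b l) p) * this
  have hVli : LinearIndependent Ω V := by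
    rw [Fintype.linearIndependent_iff]
    intro g hg p
    obtain ⟨i, hi⟩ := hc0 p
    have h1 : ∀ p, AlgebraTensorModule.lTensor Ω Ω (LinearMap.proj (φ := fun _ : ι => A) i) (V p) =
        c p i • ep p := by
      intro p
      simp only [V, map_sum]
      rw [Finset.sum_eq_single i]
      · rw [← LinearMap.comp_apply, ← AlgebraTensorModule.lTensor_comp]
        have : (LinearMap.proj (φ := fun _ : ι => A) i) ∘ₗ (LinearMap.single R (fun _ => A) i) =
            LinearMap.id := by
          ext a; simp
        rw [this]; simp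
      · intro j _ hj
        rw [← LinearMap.comp_apply, ← AlgebraTensorModule.lTensor_comp]
        have : (LinearMap.proj (φ := fun _ : ι => A) i) ∘ₗ (LinearMap.single R (fun _ => A) j) =
            0 := by
          ext a; simp [Ne.symm hj]
        rw [this]; simp
      · simp
    have h2 := congrArg (AlgebraTensorModule.lTensor Ω Ω
      (LinearMap.proj (R := R) (φ := fun _ : ι => A) i)) hg
    rw [map_sum, map_zero] at h2
    simp only [map_smul, h1, smul_smul] at h2
    have h3 := hepi _ h2 p
    exact (mul_eq_zero.mp h3).resolve_right hi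
  -- conclusion
  have hle1 : Fintype.card T ≤ finrank Ω (LinearMap.ker (AlgebraTensorModule.lTensor Ω Ω F)) := by
    have : LinearIndependent Ω (fun p : T =>
        (⟨V p, hV p⟩ : LinearMap.ker (AlgebraTensorModule.lTensor Ω Ω F))) := by
      apply LinearIndependent.of_comp
        (LinearMap.ker (AlgebraTensorModule.lTensor Ω Ω F)).subtype
      exact hVli
    exact this.fintype_card_le_finrank
  have hle2 : finrank Ω (LinearMap.ker (AlgebraTensorModule.lTensor Ω Ω F)) ≤
      finrank R (LinearMap.ker F) := by
    rw [Module.Flat.ker_lTensor_eq]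
    refine (LinearMap.finrank_range_le _).trans ?_
    rw [Module.finrank_baseChange]
  rw [← hcard]
  refine (hle1.trans hle2).trans ?_
  rw [hker]

end main

end Pool.Agent.H12.Defect
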