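import Pool.Agent.H12.Defect.Defs
import Pool.Agent.H12.Defect.Semicont

open TensorProduct Module

namespace Pool.Agent.H12.Defect

universe u

section special

variable {k : Type u} [Field k]



/-- reduction modulo `X` of the coefficients -/
theorem const_split (r : PowerSeries k) : ∃ s : PowerSeries k,
    r = PowerSeries.C (PowerSeries.constantCoeff r) + PowerSeries.X * s := by
  have : PowerSeries.X ∣ r - PowerSeries.C (PowerSeries.constantCoeff r) := by
    rw [PowerSeries.X_dvd_iff]; simp
  obtain ⟨s, hs⟩ := this
  exact ⟨s, by rw [← hs]; ring⟩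

variable {𝒜 : Type u} [CommRing 𝒜] [Algebra (PowerSeries k) 𝒜] {B : Type u} [CommRing B]
  [Algebra k B]

theorem red_smul {π : 𝒜 →+* B}
    (hker : RingHom.ker π = Ideal.span {algebraMap (PowerSeries k) 𝒜 PowerSeries.X})
    (hC : ∀ r : k, π (algebraMap (PowerSeries k) 𝒜 (PowerSeries.C r)) = algebraMap k B r)
    (r : PowerSeries k) (a : 𝒜) : π (r • a) = PowerSeries.constantCoeff r • π a := by
  obtain ⟨s, hs⟩ := const_split r
  have hX : π (algebraMap (PowerSeries k) 𝒜 PowerSeries.X) = 0 := by
    rw [← RingHom.mem_ker, hker]; exact Ideal.mem_span_singleton_self _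
  have h1 : π (algebraMap (PowerSeries k) 𝒜 r) = algebraMap k B (PowerSeries.constantCoeff r) := by
    conv_lhs => rw [hs]
    rw [map_add, map_mul, map_add, map_mul, hX, zero_mul, add_zero, hC]
  rw [Algebra.smul_def, map_mul, h1, Algebra.smul_def]

/-- `B` smoothable implies that `comm y` has dimension at least `dim B`. -/
theorem IsSmoothable.finrank_le {B : Type u} [CommRing B] [Algebra k B] (hB : IsSmoothable k B)
    {ι : Type} [Fintype ι] [Nonempty ι] (y : ι → B →ₗ[k] k) :
    Module.Finite k B ∧ finrank k B ≤ finrank k (comm y) := by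
  classical
  obtain ⟨𝒜, _, _, hfin, hflat, hred, π, hπ, hker, hC⟩ := hB
  have hfree : Module.Free (PowerSeries k) 𝒜 := Module.free_of_flat_of_isLocalRing
  have hsm := red_smul (k := k) hker hC
  let Ω := AlgebraicClosure (LaurentSeries k)
  have : Module.Flat (PowerSeries k) (LaurentSeries k) :=
    IsLocalization.flat _ (nonZeroDivisors (PowerSeries k))
  have hfl : Module.Flat (PowerSeries k) Ω := Module.Flat.trans (PowerSeries k) (LaurentSeries k) Ω
  have hred' : IsReduced (Ω ⊗[PowerSeries k] 𝒜) := by
    have h1 : IsReduced (Ω ⊗[LaurentSeries k] (LaurentSeries k ⊗[PowerSeries k] 𝒜)) :=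
      (Algebra.isGeometricallyReduced_field_iff _ _).mp hred
    exact isReduced_of_injective
      (Algebra.TensorProduct.cancelBaseChange (PowerSeries k) (LaurentSeries k) Ω Ω 𝒜).symm
      (Algebra.TensorProduct.cancelBaseChange (PowerSeries k) (LaurentSeries k) Ω Ω 𝒜).symm.injective
  -- basis
  let b := Module.Free.chooseBasis (PowerSeries k) 𝒜
  have hπsum : ∀ a : 𝒜, π a = ∑ l, PowerSeries.constantCoeff (b.repr a l) • π (b l) := by
    intro a
    conv_lhs => rw [← b.sum_repr a]
    rw [map_sum]
    exact Finset.sum_congr rfl (fun l _ => hsm _ _)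
  have hspan : Submodule.span k (Set.range fun l => π (b l)) = ⊤ := by
    rw [eq_top_iff]
    intro x _
    obtain ⟨a, rfl⟩ := hπ x
    rw [hπsum a]
    exact Submodule.sum_mem _ (fun l _ => Submodule.smul_mem _ _
      (Submodule.subset_span ⟨l, rfl⟩))
  have hfinB : Module.Finite k B := by
    refine ⟨⟨Finset.univ.image (fun l => π (b l)), ?_⟩⟩
    rw [Finset.coe_image, Finset.coe_univ, Set.image_univ]
    exact hspan
  have hle0 : finrank k B ≤ finrank (PowerSeries k) 𝒜 := by
    rw [finrank_eq_card_basis b]
    have h1 := finrank_range_le_card (R := k) (fun l => π (b l))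
    rw [Set.finrank, hspan, finrank_top] at h1
    exact h1
  refine ⟨hfinB, hle0.trans ?_⟩
  -- lifts of the functionals
  let y' : ι → 𝒜 →ₗ[PowerSeries k] PowerSeries k := fun i =>
    b.constr (PowerSeries k) (fun l => PowerSeries.C (y i (π (b l))))
  have hy' : ∀ i a, PowerSeries.constantCoeff (y' i a) = y i (π a) := by
    intro i a
    rw [hπsum a, map_sum]
    simp only [y', Basis.constr_apply_fintype, map_sum, smul_eq_mul, map_mul, map_smul,
      PowerSeries.constantCoeff_C, Basis.equivFun_apply]
  have hle1 : finrank (PowerSeries k) 𝒜 ≤ finrank (PowerSeries k) (comm y') :=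
    finrank_le_finrank_comm (Ω := Ω) y'
  refine hle1.trans ?_
  -- a basis of the saturated submodule
  have hfreeN : Module.Free (PowerSeries k) (comm y') := inferInstance
  have hfinN : Module.Finite (PowerSeries k) (comm y') := inferInstance
  let n := Module.Free.chooseBasis (PowerSeries k) (comm y')
  let J := Module.Free.ChooseBasisIndex (PowerSeries k) (comm y')
  let w : J → comm y := fun q => ⟨fun i => π ((n q : ι → 𝒜) i), by
    intro i j c
    obtain ⟨a, rfl⟩ := hπ c
    rw [← map_mul, ← map_mul, ← hy', ← hy', (n q).2 i j a]⟩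
  have hw : LinearIndependent k w := by
    rw [Fintype.linearIndependent_iff]
    intro α hα q
    let μ : comm y' := ∑ q, (PowerSeries.C (α q)) • n q
    have hμ : ∀ i, π ((μ : ι → 𝒜) i) = 0 := by
      intro i
      have h1 := congrFun (congrArg Subtype.val hα) i
      simp only [w, Submodule.coe_sum, Submodule.coe_smul, Finset.sum_apply, Pi.smul_apply,
        Submodule.coe_zero, Pi.zero_apply] at h1
      simp only [μ, Submodule.coe_sum, Submodule.coe_smul, Finset.sum_apply, Pi.smul_apply, map_sum,
        hsm, PowerSeries.constantCoeff_C]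
      exact h1
    have hν : ∀ i, ∃ ν : 𝒜, (μ : ι → 𝒜) i = (PowerSeries.X : PowerSeries k) • ν := by
      intro i
      have h1 : (μ : ι → 𝒜) i ∈ Ideal.span {algebraMap (PowerSeries k) 𝒜 PowerSeries.X} := by
        rw [← hker]; exact hμ i
      obtain ⟨ν, hν⟩ := Ideal.mem_span_singleton'.mp h1
      exact ⟨ν, by rw [Algebra.smul_def, mul_comm, hν]⟩
    choose ν hν using hν
    have hνN : ν ∈ comm y' := by
      intro i j c
      have h1 := μ.2 i j c
      rw [hν i, hν j, smul_mul_assoc, smul_mul_assoc, map_smul, map_smul, smul_eq_mul,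
        smul_eq_mul] at h1
      exact mul_left_cancel₀ PowerSeries.X_ne_zero h1
    have h2 : μ = (PowerSeries.X : PowerSeries k) • (⟨ν, hνN⟩ : comm y') := by
      apply Subtype.ext
      funext i
      exact hν i
    have h3 := congrArg (fun z => n.repr z q) h2
    simp only [μ, map_sum, map_smul, Finsupp.coe_finset_sum, Finset.sum_apply, Finsupp.smul_apply,
      Basis.repr_self, smul_eq_mul] at h3
    rw [Finset.sum_eq_single q] at h3
    · rw [Finsupp.single_eq_same, mul_one] at h3
      have h4 := congrArg PowerSeries.constantCoeff h3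
      simpa using h4
    · intro q' _ hq'
      rw [Finsupp.single_eq_of_ne (Ne.symm hq'), mul_zero]
    · intro h; exact absurd (Finset.mem_univ q) h
  have := hw.fintype_card_le_finrank
  rw [finrank_eq_card_basis n]
  exact this

end special

end Pool.Agent.H12.Defect
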