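import Pool.Agent.H12.Defect.Ineq
import Pool.Agent.H12.Defect.Net

/-!
# Tensor powers of `Net k m`
-/

open TensorProduct Module

namespace Pool.Agent.H12.Defect

universe u

/-- `n`-th tensor power of `Net k m` -/
abbrev Pow (k : Type u) [Field k] (m n : ℕ) : Type u := ⨂[k] _ : Fin n, Net k m

variable {k : Type u} [Field k] {m n : ℕ}

/-- product basis of the tensor power -/
noncomputable def pbas (k : Type u) [Field k] (m n : ℕ) :
    Basis (Fin n → Net.Idx m) k (Pow k m n) :=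
  Basis.piTensorProduct (fun _ : Fin n => Net.bas k m)

theorem finrank_pow : finrank k (Pow k m n) = (2 * m + 4) ^ n := by
  rw [finrank_eq_card_basis (pbas k m n)]
  simp
  ring

noncomputable instance : Module.Finite k (Pow k m n) := Module.Finite.of_basis (pbas k m n)

/-- coordinate functional at a multi-index of socle elements -/
noncomputable def yfun (k : Type u) [Field k] (m n : ℕ) (s : Fin n → Fin 3) :
    Pow k m n →ₗ[k] k :=
  (pbas k m n).coord (fun i => Sum.inr (Sum.inr (s i)))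

theorem yfun_mul (s : Fin n → Fin 3) (β γ : Fin n → Net.Idx m) :
    yfun k m n s (pbas k m n β * pbas k m n γ) = ((∏ i, Net.tab (s i) (β i) (γ i) : ℕ) : k) := by
  rw [yfun, Basis.coord_apply, pbas, Basis.piTensorProduct_apply, Basis.piTensorProduct_apply,
    PiTensorProduct.tprod_mul_tprod, Basis.piTensorProduct_repr_tprod_apply, Nat.cast_prod]
  refine Finset.prod_congr rfl fun i _ => ?_
  rw [Pi.mul_apply, Net.repr_mul]

theorem yfun_mul' (s : Fin n → Fin 3) (a : Pow k m n) (γ : Fin n → Net.Idx m) :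
    yfun k m n s (a * pbas k m n γ) =
      ∑ β, (pbas k m n).repr a β * ((∏ i, Net.tab (s i) (β i) (γ i) : ℕ) : k) := by
  conv_lhs => rw [← (pbas k m n).sum_repr a]
  rw [Finset.sum_mul, map_sum]
  refine Finset.sum_congr rfl fun β _ => ?_
  rw [smul_mul_assoc, map_smul, yfun_mul, smul_eq_mul]

/-- `(s, γ)` isolates `β₀` -/
def Iso (β₀ : Net.Idx m) (s : Fin 3) (γ : Net.Idx m) : Prop :=
  ∀ β, Net.tab s β γ = if β = β₀ then 1 else 0

theorem iso_one (u : Unit) (w : Fin 3) : Iso (m := m) (Sum.inl u) w (Sum.inr (Sum.inr w)) := by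
  intro β
  rcases β with _ | _ | _ <;> simp [Net.tab]

theorem iso_W (w : Fin 3) : Iso (m := m) (Sum.inr (Sum.inr w)) w (Sum.inl ()) := by
  intro β
  rcases β with _ | _ | w' <;> simp [Net.tab, eq_comm]

/-- sum of two elements of `Fin 2` in `Fin 3` -/
def add3 (p q : Fin 2) : Fin 3 := ⟨(p : ℕ) + (q : ℕ), by omega⟩

theorem iso_V (i : Fin m) (p q : Fin 2) :
    Iso (Sum.inr (Sum.inl (i, p))) (add3 p q) (Sum.inr (Sum.inl (i, q))) := by
  intro β
  rcases β with _ | ⟨i', p'⟩ | _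
  · simp [Net.tab]
  · simp only [Net.tab, add3, Sum.inr.injEq, Sum.inl.injEq, Prod.mk.injEq]
    congr 1
    apply propext
    constructor
    · rintro ⟨h1, h2⟩
      exact ⟨h1, by apply Fin.ext; omega⟩
    · rintro ⟨h1, h2⟩
      exact ⟨h1, by rw [h2]⟩
  · simp [Net.tab]

theorem exists_iso (β₀ : Net.Idx m) : ∃ s γ, Iso β₀ s γ := by
  rcases β₀ with u | ⟨i, p⟩ | w
  · exact ⟨0, _, iso_one u 0⟩
  · exact ⟨_, _, iso_V i p 0⟩
  · exact ⟨w, _, iso_W w⟩

/-- coefficient formula -/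
theorem coeff_eq {φ : (Fin n → Fin 3) → Pow k m n} (hφ : φ ∈ comm (yfun k m n))
    (s : Fin n → Fin 3) (β₀ : Fin n → Net.Idx m) (s' : Fin n → Fin 3) (γ : Fin n → Net.Idx m)
    (h : ∀ j, Iso (β₀ j) (s' j) (γ j)) :
    (pbas k m n).repr (φ s) β₀ =
      ∑ β, (pbas k m n).repr (φ s') β * ((∏ i, Net.tab (s i) (β i) (γ i) : ℕ) : k) := by
  classical
  have h1 := hφ s s' (pbas k m n γ)
  rw [yfun_mul', yfun_mul'] at h1
  rw [← h1, Finset.sum_eq_single β₀]
  · rw [Finset.prod_eq_one]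
    · simp
    · intro i _
      rw [h i]; simp
  · intro β _ hβ
    obtain ⟨i, hi⟩ := Function.ne_iff.mp hβ
    rw [Finset.prod_eq_zero (Finset.mem_univ i)]
    · simp
    · rw [h i]; simp [hi]
  · simp

/-- extend an isolating pair at `j₀` to all places -/
theorem exists_pair (β₀ : Fin n → Net.Idx m) (j₀ : Fin n) (s₁ : Fin 3) (γ₁ : Net.Idx m)
    (h : Iso (β₀ j₀) s₁ γ₁) :
    ∃ (s' : Fin n → Fin 3) (γ : Fin n → Net.Idx m),
      (∀ j, Iso (β₀ j) (s' j) (γ j)) ∧ s' j₀ = s₁ ∧ γ j₀ = γ₁ := by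
  classical
  choose S G hSG using fun j => exists_iso (β₀ j)
  refine ⟨Function.update S j₀ s₁, Function.update G j₀ γ₁, ?_, by simp, by simp⟩
  intro j
  by_cases hj : j = j₀
  · subst hj; simpa using h
  · simpa [Function.update_of_ne hj] using hSG j

/-- step 1 -/
theorem vanish_one {φ : (Fin n → Fin 3) → Pow k m n} (hφ : φ ∈ comm (yfun k m n))
    (s : Fin n → Fin 3) (β₀ : Fin n → Net.Idx m) (j₀ : Fin n) (s₁ : Fin 3) (γ₁ : Net.Idx m)
    (h : Iso (β₀ j₀) s₁ γ₁) (h0 : ∀ β, Net.tab (s j₀) β γ₁ = 0) :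
    (pbas k m n).repr (φ s) β₀ = 0 := by
  obtain ⟨s', γ, h1, h2, h3⟩ := exists_pair β₀ j₀ s₁ γ₁ h
  rw [coeff_eq hφ s β₀ s' γ h1]
  refine Finset.sum_eq_zero fun β _ => ?_
  rw [Finset.prod_eq_zero (Finset.mem_univ j₀)]
  · simp
  · rw [h3, h0]

theorem vanish_unit {φ : (Fin n → Fin 3) → Pow k m n} (hφ : φ ∈ comm (yfun k m n))
    (s : Fin n → Fin 3) (β₀ : Fin n → Net.Idx m) (j₀ : Fin n) (u : Unit)
    (h : β₀ j₀ = Sum.inl u) : (pbas k m n).repr (φ s) β₀ = 0 := by
  obtain ⟨w, hw⟩ : ∃ w : Fin 3, w ≠ s j₀ := exists_ne _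
  refine vanish_one hφ s β₀ j₀ w (Sum.inr (Sum.inr w)) (h ▸ iso_one u w) ?_
  intro β
  rcases β with _ | _ | _ <;> simp [Net.tab, hw.symm]

theorem vanish_V02 {φ : (Fin n → Fin 3) → Pow k m n} (hφ : φ ∈ comm (yfun k m n))
    (s : Fin n → Fin 3) (β₀ : Fin n → Net.Idx m) (j₀ : Fin n) (v : Fin m × Fin 2)
    (h : β₀ j₀ = Sum.inr (Sum.inl v)) (hs : s j₀ ≠ 1) : (pbas k m n).repr (φ s) β₀ = 0 := by
  obtain ⟨i, p⟩ := v
  have hs' : s j₀ = 0 ∨ s j₀ = 2 := by
    generalize s j₀ = t at hs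
    fin_cases t <;> simp_all
  rcases hs' with hs' | hs'
  · refine vanish_one hφ s β₀ j₀ _ _ (h ▸ iso_V i p 1) ?_
    intro β
    rcases β with _ | _ | _ <;> simp [Net.tab, hs']
  · refine vanish_one hφ s β₀ j₀ _ _ (h ▸ iso_V i p 0) ?_
    intro β
    rcases β with _ | ⟨i', p'⟩ | _
    · simp [Net.tab, hs']
    · simp only [Net.tab, hs']
      rw [if_neg]
      rintro ⟨-, h2⟩
      simp at h2
      omega
    · simp [Net.tab, hs']

theorem vanish_V {φ : (Fin n → Fin 3) → Pow k m n} (hφ : φ ∈ comm (yfun k m n))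
    (s : Fin n → Fin 3) (β₀ : Fin n → Net.Idx m) (j₀ : Fin n) (v : Fin m × Fin 2)
    (h : β₀ j₀ = Sum.inr (Sum.inl v)) : (pbas k m n).repr (φ s) β₀ = 0 := by
  by_cases hs : s j₀ = 1
  · obtain ⟨i, p⟩ := v
    obtain ⟨s', γ, h1, h2, h3⟩ := exists_pair β₀ j₀ (add3 p p)
      (Sum.inr (Sum.inl (i, p))) (by rw [h]; exact iso_V i p p)
    rw [coeff_eq hφ s β₀ s' γ h1]
    refine Finset.sum_eq_zero fun β _ => ?_
    by_cases hβ : ∃ v', β j₀ = Sum.inr (Sum.inl v')
    · obtain ⟨v', hv'⟩ := hβ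
      rw [vanish_V02 hφ s' β j₀ v' hv', zero_mul]
      rw [h2]
      fin_cases p <;> simp [add3]
    · rw [Finset.prod_eq_zero (Finset.mem_univ j₀)]
      · simp
      · rw [h3]
        generalize hb : β j₀ = b at hβ
        rcases b with _ | v' | _
        · simp [Net.tab]
        · exact absurd ⟨v', rfl⟩ hβ
        · simp [Net.tab]
  · exact vanish_V02 hφ s β₀ j₀ v h hs

theorem vanish {φ : (Fin n → Fin 3) → Pow k m n} (hφ : φ ∈ comm (yfun k m n))
    (s : Fin n → Fin 3) (β₀ : Fin n → Net.Idx m)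
    (h : ¬ ∃ t : Fin n → Fin 3, β₀ = fun i => Sum.inr (Sum.inr (t i))) :
    (pbas k m n).repr (φ s) β₀ = 0 := by
  by_contra hne
  apply h
  have h1 : ∀ i, ∃ t : Fin 3, β₀ i = Sum.inr (Sum.inr t) := by
    intro i
    generalize hb : β₀ i = b
    rcases b with u | v | w
    · exact absurd (vanish_unit hφ s β₀ i u hb) hne
    · exact absurd (vanish_V hφ s β₀ i v hb) hne
    · exact ⟨w, rfl⟩
  choose t ht using h1
  exact ⟨t, funext ht⟩

theorem finrank_comm_le : finrank k (comm (yfun k m n)) ≤ 9 ^ n := by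
  classical
  let F : comm (yfun k m n) →ₗ[k] ((Fin n → Fin 3) → (Fin n → Fin 3) → k) :=
    { toFun := fun φ s t => (pbas k m n).repr ((φ : (Fin n → Fin 3) → Pow k m n) s)
        (fun i => Sum.inr (Sum.inr (t i)))
      map_add' := by
        intro φ ψ; funext s t; simp
      map_smul' := by
        intro c φ; funext s t; simp }
  have hF : Function.Injective F := by
    rw [injective_iff_map_eq_zero]
    intro φ hφ
    apply Subtype.ext
    funext s
    apply (pbas k m n).ext_elem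
    intro β
    by_cases h : ∃ t : Fin n → Fin 3, β = fun i => Sum.inr (Sum.inr (t i))
    · obtain ⟨t, rfl⟩ := h
      have := congrFun (congrFun hφ s) t
      simpa [F] using this
    · rw [vanish φ.2 s β h]
      simp
  have h1 := LinearMap.finrank_le_finrank_of_injective hF
  refine h1.trans (le_of_eq ?_)
  rw [Module.finrank_pi_fintype]
  simp
  rw [← mul_pow]
  norm_num

/-- For every smoothable `Spec B` containing the `n`-th power of `Spec (Net k m)` with
`deg B = (2m+4)^n + δ` one has `(2m+4)^n + δ ≤ 9^n + 3^n δ`. -/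
theorem defect_bound {B : Type u} [CommRing B] [Algebra k B]
    (hB : IsSmoothable k B) (g : B →ₐ[k] Pow k m n) (hg : Function.Surjective g) {δ : ℕ}
    (hδ : finrank k B = finrank k (Pow k m n) + δ) :
    (2 * m + 4) ^ n + δ ≤ 9 ^ n + 3 ^ n * δ := by
  have h1 := basic_ineq hB g hg (yfun k m n) hδ
  rw [finrank_pow] at h1
  have h2 := finrank_comm_le (k := k) (m := m) (n := n)
  have h3 : Fintype.card (Fin n → Fin 3) = 3 ^ n := by simp
  rw [h3] at h1
  omega

end Pool.Agent.H12.Defect
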